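import Mathlib
import Pool.Agent.Q45.NotInS

/-!
# A plane curve parameterizable by cubics outside the class `𝒮`

Over every algebraically closed field of characteristic zero there is a plane curve (a rational
octic) which is parameterizable by cubics but is not the closure of the image of a curve
parameterizable by lines and singular at `(0:0:1)` under any birational map of the plane whose
inverse is given by cubic forms.  The definitions `IsPlaneCurve`, `ParamBy` and `InS` are in
`Pool.Agent.Q45.Forms`.
-/

namespace Pool.Agent.Results.MP_87683a_ag.OcticNotInS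

open Q45.Forms Q45.OcticCurve

theorem result (K : Type*) [Field K] [IsAlgClosed K] [CharZero K] :
    ∃ E : MvPolynomial (Fin 3) K, IsPlaneCurve E ∧ (∃ F, ParamBy E 3 F) ∧ ¬ InS E :=
  ⟨Epoly K, ⟨irreducible_Epoly, 8, Epoly_hom⟩, ⟨Fpoly K, paramBy_cubics⟩, Q45.NotInS.not_InS⟩

end Pool.Agent.Results.MP_87683a_ag.OcticNotInS
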